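import Mathlib
import Pool.Prelude.Def_F_c31e40fa
import Pool.Agent.J4H16.Der

set_option autoImplicit false

namespace Pool.Agent.Results.MP_af9036_an.ReturnDerivatives

/-- The map `z ↦ z ^ n + c`. -/
def f (n : ℕ) (c : ℂ) : ℂ → ℂ := fun z => z ^ n + c

/-- The parameters `c` for which `z ^ n + c` has an attracting cycle. -/
def hyp (n : ℕ) : Set ℂ := {c | ∃ m z, N62a1eb23.IsAttractingCycle (f n c) m z}

/-- The postcritical set: the closure of the forward orbit of the critical value. -/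
def P (n : ℕ) (c : ℂ) : Set ℂ := closure {z | ∃ k, 1 ≤ k ∧ z = (f n c)^[k] 0}

/-- The closure of the forward orbit of `y`. -/
def O (n : ℕ) (c y : ℂ) : Set ℂ := closure (Set.range fun k => (f n c)^[k] y)

/-- The round annulus with centre `x` and radii `η`, `K * η` does not meet the postcritical set. -/
def Gap (n : ℕ) (c : ℂ) (K : ℝ) (x : ℂ) (η : ℝ) : Prop :=
  ∀ u ∈ P n c, ¬ (η < ‖u - x‖ ∧ ‖u - x‖ < K * η)

/-- Every point of the postcritical set has in the closure of its orbit the critical point, or a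
point at which the postcritical set has gaps of a fixed ratio at arbitrarily small scales. -/
def Rec (n : ℕ) (c : ℂ) : Prop :=
  ∀ y ∈ P n c, (0 : ℂ) ∈ O n c y ∨ ∃ w ∈ O n c y, ∃ l : ℝ, 1 < l ∧ ∀ η₀ : ℝ, 0 < η₀ →
    ∃ η : ℝ, 0 < η ∧ η < η₀ ∧ Gap n c l w η

/-- Density of hyperbolicity in degree at least three at the parameters such that, for a sequence
of scales `ρ` tending to zero, the sum of `1 / |(f ^ k)' (c)|` over the times `k` with
`|f ^ k (c)| < ρ` is at most `ρ ^ (n - 1) / (8192 n ^ 3)`. -/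
theorem result (n : ℕ) (hn : 3 ≤ n) (c : ℂ) (hc : c ∈ N62a1eb23.multibrotSet n) (hrec : Rec n c)
    (H : ∀ ρ₀ : ℝ, 0 < ρ₀ → ∃ ρ : ℝ, 0 < ρ ∧ ρ < ρ₀ ∧ ∀ F : Finset ℕ,
      (∀ k ∈ F, ‖(f n c)^[k] c‖ < ρ) →
        ∑ k ∈ F, 1 / ‖deriv (f n c)^[k] c‖ ≤ ρ ^ (n - 1) / (8192 * n ^ 3)) :
    c ∈ closure (hyp n) := by
  refine Pool.Agent.J4H16.sum_thm hn hc hrec ?_
  intro ρ₀ hρ₀
  obtain ⟨ρ, h1, h2, h3⟩ := H ρ₀ hρ₀
  refine ⟨ρ, h1, h2, fun F hF => ?_⟩
  have h4 := h3 F hF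
  have hP : ∀ k, deriv (f n c)^[k] c = Pool.Agent.W746.LD.P n c c k := fun k =>
    (Pool.Agent.W746.LD.hasDerivAt_orb c k).deriv
  simp only [hP] at h4
  exact h4

end Pool.Agent.Results.MP_af9036_an.ReturnDerivatives
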