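import Mathlib
import Pool.Prelude.Def_F_c31e40fa
import Pool.Agent.J4H16.AS.Tool

set_option autoImplicit false

namespace Pool.Agent.Results.MP_af9036_an.ThinPostcriticalSets

/-- The map `z ↦ z ^ n + c`. -/
def f (n : ℕ) (c : ℂ) : ℂ → ℂ := fun z => z ^ n + c

/-- The parameters `c` for which `z ^ n + c` has an attracting cycle. -/
def hyp (n : ℕ) : Set ℂ := {c | ∃ m z, N62a1eb23.IsAttractingCycle (f n c) m z}

/-- The postcritical set: the closure of the forward orbit of the critical value. -/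
def P (n : ℕ) (c : ℂ) : Set ℂ := closure {z | ∃ k, 1 ≤ k ∧ z = (f n c)^[k] 0}

/-- The set `S` has the packing bound with the exponent `s` at all places and scales: an
`ε`-separated subset of `S ∩ B(a, R)` has at most `C (R / ε) ^ s` elements, `0 < ε ≤ R ≤ 1`. -/
def Packing (S : Set ℂ) (C s : ℝ) : Prop :=
  ∀ (a : ℂ) (R ε : ℝ), 0 < ε → ε ≤ R → R ≤ 1 → ∀ F : Finset ℂ,
    (∀ p ∈ F, p ∈ S ∧ ‖p - a‖ < R) → (∀ p ∈ F, ∀ q ∈ F, p ≠ q → ε ≤ ‖p - q‖) →
      (F.card : ℝ) ≤ C * (R / ε) ^ s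

/-- Density of hyperbolicity at all parameters whose postcritical set has Assouad dimension less
than one, in every degree `n ≥ 2`. -/
theorem result (n : ℕ) (hn : 2 ≤ n) (c : ℂ) (hc : c ∈ N62a1eb23.multibrotSet n)
    (H : ∃ C s : ℝ, s < 1 ∧ Packing (P n c) C s) : c ∈ closure (hyp n) := by
  obtain ⟨C, s, hs, H⟩ := H
  obtain ⟨C0, c0, T⟩ := Pool.Agent.J4H16.AS.exists_TL2
  have hth : Pool.Agent.J4H16.AS.Thin (Pool.Agent.J4H16.PC n c) (|C|) (max s (1 / 2)) := by
    intro a R ε h1 h2 h3 F h4 h5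
    have h6 : (F.card : ℝ) ≤ C * (R / ε) ^ s := H a R ε h1 h2 h3 F h4 h5
    have h7 : 1 ≤ R / ε := by rw [le_div_iff₀ h1]; linarith
    calc (F.card : ℝ) ≤ C * (R / ε) ^ s := h6
      _ ≤ |C| * (R / ε) ^ s :=
          mul_le_mul_of_nonneg_right (le_abs_self C) (Real.rpow_nonneg (by linarith) _)
      _ ≤ |C| * (R / ε) ^ (max s (1 / 2)) :=
          mul_le_mul_of_nonneg_left (Real.rpow_le_rpow_of_exponent_le h7 (le_max_left _ _))
            (abs_nonneg C)
  exact Pool.Agent.J4H16.AS.as_main T hn hc (lt_max_of_lt_right (by norm_num))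
    (max_lt hs (by norm_num)) hth

end Pool.Agent.Results.MP_af9036_an.ThinPostcriticalSets
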